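import Pool.Agent.Q115.KR.All
set_option autoImplicit false

/-!
Beilinson's conjecture on regulators, `i = 1`, `n = 2`, for curves over number fields: all
archimedean places at once.

For every number field `K` and every set of `s ≥ 2` archimedean places of `K`, in particular for the
set of all archimedean places if `K` has at least two, there are curves
`(1 - y^N) ∏_v (1 - (x/u_v)^m) = 1` over `K`, `u_v` units, `K` containing the `N`-th and the `m`-th
roots of unity (for instance `N = m = 2`), with `m s (N - 1)` integral classes in `K_2` whose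
regulators are independent, `m (N - 1)` of the loops being over each of the places.
-/

namespace Pool.Agent.Results.MP_15b3df_nt.AllArchimedeanPlaces

open Pool.Agent.TH826.MH (eqn)
open Pool.Agent.TH265.V Pool.Agent.Q115.KR
open NumberField

universe u v

/-- The equation `(1 - y^(p+1)) ∏_k (1 - x^(q+1) / (e_k ^ M)^(q+1)) - 1` (`y`, `x` are the variables
number `0`, `1`). -/
noncomputable def curve {K : Type u} [Field K] [NumberField K] (p q : ℕ) {t : ℕ}
    (e : Fin (t + 1) → (𝓞 K)ˣ) (M : ℕ) : MvPolynomial (Fin (1 + 1)) K :=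
  (1 - MvPolynomial.X 0 ^ (p + 1)) *
    ∏ k : Fin (t + 1), (1 - MvPolynomial.C (((e k : K) ^ M) ^ (q + 1))⁻¹ *
      MvPolynomial.X 1 ^ (q + 1)) - 1

/-- Let `N = p + 1 ≥ 2` and `m = q + 1 ≥ 1`, let `K` be a number field with a primitive `N`-th root of
unity `ζ` and a primitive `m`-th root of unity `ω`, and let `v_0, ..., v_t`, `t ≥ 1`, be different
archimedean places of `K` (for instance all of them). There are units `e_k` of `K` with
`|e_k| > 1` at `v_k` and `|e_k| < 1` at `v_l`, `l ≠ k`. For all such units and all large `M` the curve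
`(1 - y^N) ∏_k (1 - (x / e_k^M)^m) = 1` has a coordinate ring which is a domain; the
`m (t + 1) (N - 1)` symbols `{(y - ζ^j) / (y - ζ^(j+1)), (x - α) / x}`, `0 ≤ j < N - 1`,
`α = ω^i e_k^M`, in `K_2` of the open part `x ≠ 0`, are unramified at all discrete valuations of the
function field; and there are `m (t + 1) (N - 1)` loops in the complex points, `m (N - 1)` of them
over each of the `t + 1` places, such that the determinant of the regulators of the symbols on the
loops does not vanish. -/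
theorem result (p q t : ℕ) (hp : 1 ≤ p) (ht : 1 ≤ t) (K : Type u) [Field K] [NumberField K]
    (ζ ω : K) (hζ : IsPrimitiveRoot ζ (p + 1)) (hω : IsPrimitiveRoot ω (q + 1))
    (v : Fin (t + 1) → InfinitePlace K) (hv : Function.Injective v) :
    (∃ e : Fin (t + 1) → (𝓞 K)ˣ, UnitsAt v e) ∧
    ∀ e : Fin (t + 1) → (𝓞 K)ˣ, UnitsAt v e → ∃ M₀ : ℕ, ∀ M ≥ M₀,
      eqn (lm (al2 (q := q) ω fun k => (e k : K) ^ M))
        (rts p ζ (al2 (q := q) ω fun k => (e k : K) ^ M)) = curve p q e M ∧
      IsDomain (Crv p ζ (al2 (q := q) ω fun k => (e k : K) ^ M)) ∧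
      UnramifiedSymbols.{u, v} p ζ (al2 (q := q) ω fun k => (e k : K) ^ M) ∧
      IndependentRegulators p ζ (al2 (q := q) ω fun k => (e k : K) ^ M)
        (fun i => (v (blk i)).embedding) := by
  refine ⟨exists_unitsAt ht v hv, ?_⟩
  intro e he
  obtain ⟨M₀, hM₀⟩ := all_det p q t ht ζ ω hζ hω v e he
  refine ⟨M₀, fun M hM => ?_⟩
  obtain ⟨hinj, hreg⟩ := hM₀ M hM
  set U : Fin (t + 1) → K := fun k => (e k : K) ^ M with hU
  have hU0 : ∀ k, U k ≠ 0 := fun k => pow_ne_zero _ (Units.coe_ne_zero (e k))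
  have hω0 : ω ≠ 0 := hω.ne_zero (Nat.succ_ne_zero q)
  have h0 : ∀ i, al2 (q := q) ω U i ≠ 0 := fun i => mul_ne_zero (pow_ne_zero _ hω0) (hU0 _)
  have hωi : IsIntegral ℤ ω := hω.isIntegral (Nat.succ_pos q)
  have hωi' : IsIntegral ℤ ω⁻¹ := hω.inv.isIntegral (Nat.succ_pos q)
  have hUi : ∀ k, IsIntegral ℤ (U k) := fun k => (RingOfIntegers.isIntegral_coe _).pow _
  have hUi' : ∀ k, IsIntegral ℤ (U k)⁻¹ := by
    intro k
    have h1 : (e k : K)⁻¹ = (((e k)⁻¹ : (𝓞 K)ˣ) : K) := by
      rw [inv_eq_iff_eq_inv]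
      refine eq_inv_of_mul_eq_one_left ?_
      rw [← map_mul, Units.mul_inv, map_one]
    show IsIntegral ℤ ((e k : K) ^ M)⁻¹
    rw [← inv_pow, h1]
    exact (RingOfIntegers.isIntegral_coe _).pow _
  have hi : ∀ i, IsIntegral ℤ (al2 (q := q) ω U i) := fun i => (hωi.pow _).mul (hUi _)
  have hi' : ∀ i, IsIntegral ℤ (al2 (q := q) ω U i)⁻¹ := by
    intro i
    unfold al2
    rw [mul_inv, ← inv_pow]
    exact (hωi'.pow _).mul (hUi' _)
  refine ⟨?_, isDomain_crv hζ h0 hinj, ?_, hreg⟩
  · rw [eqn_eq hζ h0, prod_al2 hω U]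
    rfl
  · obtain ⟨Γ, -, -⟩ := hreg
    exact unramified_crv hζ h0 hi hi' (Γ (0, ⟨0, hp⟩))

end Pool.Agent.Results.MP_15b3df_nt.AllArchimedeanPlaces
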