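import Pool.Agent.Q193.LT.Cyc

/-!
# Beilinson's regulator and the cubic hypersurfaces `T(x, y, z) = 1`

For a Chow motive `N` over `ℚ` let `H^k_M(N, ℚ(n))_ℤ` be the integral part of the motivic cohomology (in
the definition of Scholl, which is functorial in Chow motives and which is the group of the problem for
the motives of smooth projective varieties with a regular proper model), and `H^k_D(N_ℝ, ℝ(n))` the real
Deligne-Beilinson cohomology. The regulator is a natural map
`H^k_M(N, ℚ(n))_ℤ ⊗ ℝ → H^k_D(N_ℝ, ℝ(n))`. Question Q1 says that it is an isomorphism for all motives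
`N = h(X)` and all `k`, `n` with `2n - k ≥ 2` (`k = i + 1`, `n = i + 1 - m`, and `m < i/2` means
`2n - k ≥ 2`).

For a separated scheme `X` of finite type over `ℚ` let `W(X)` be its weight complex (Gillet, Soulé), a
complex of Chow motives. For the indices `(w, n, j)`, `w ∈ ℕ`, `n, j ∈ ℤ`, put `k = 2n - w - 2` and let
`A^{w,n,j}(X) = H^j(H^k_M(W(X), ℚ(n))_ℤ ⊗ ℝ)`, `B^{w,n,j}(X) = H^j(H^k_D(W(X)_ℝ, ℝ(n)))`. The
regulator induces maps `A^{w,n,j}(X) → B^{w,n,j}(X)`. For smooth projective `X` these are the regulators
for `X` if `j = 0`, and the groups for `j ≠ 0` are zero. `BijAll C X` says that the maps are isomorphisms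
for all `(w, n, j)`; for smooth projective `X` this is the statement of question Q1 for `X`.

**Theorem.** (1) The regulators are isomorphisms, in the whole range of question Q1, for all smooth
projective varieties over `ℚ` if and only if the maps `A^{w,n,j}(X_H) → B^{w,n,j}(X_H)` are isomorphisms
for the smooth affine cubic hypersurfaces `X_H : ∑_{(i, j, l) ∈ H} x_i y_j z_l = 1` of all finite sets
`H` of triples.

(2) For all `d`, the regulators are isomorphisms for all smooth projective varieties of dimension at most
`d` over `ℚ` if and only if the maps are isomorphisms for the hypersurfaces `T(x, y, z) = 1` of all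
trilinear forms `T` over `ℚ` such that one of the three blocks of variables has at most `d + 2` variables
(the other two blocks are arbitrary).

(3) Unconditionally, the maps are isomorphisms for the hypersurfaces `T(x, y, z) = 1` such that one of
the three blocks of variables has at most two variables.
-/

set_option autoImplicit false

open CategoryTheory CategoryTheory.Limits AlgebraicGeometry Pool.Agent.Y116.UV Pool.Agent.Z125.UN
  Pool.Agent.Q193.LT

universe w

namespace Pool.Agent.Results.MP_15b3df_nt.HypergraphRegulators

/-- The indices `(w, n, j)`. -/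
abbrev Idx : Type := ℕ × ℤ × ℤ

/-- The shift `(w, n, j) ↦ (w, n, j + 1)`. -/
def shiftJ : Idx ≃ Idx := Equiv.prodCongr (Equiv.refl ℕ) shiftI

/-- The Tate twist `(w, n, j) ↦ (w, n + 1, j)`. -/
def twist : Idx ≃ Idx := Equiv.prodCongr (Equiv.refl ℕ) shiftN

/-- The maps are isomorphisms for all smooth projective schemes of dimension at most `d`. -/
def Proj (C : PairData.{w} ℚ Idx ℝ) (d : ℕ) : Prop :=
  ∀ Y : Sch ℚ, SmoothProj Y → topologicalKrullDim Y.left ≤ d → BijAll C Y

/-- The maps are isomorphisms for all hypersurfaces `T = 1` with a block of at most `m` variables. -/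
def Forms (C : PairData.{w} ℚ Idx ℝ) (m : ℕ) : Prop :=
  ∀ (a b c : ℕ) (T : Fin a → Fin b → Fin c → ℚ), (a ≤ m ∨ b ≤ m ∨ c ≤ m) → BijAll C (hypS T)

/-- **Regulators and cubic hypersurfaces.** See the explanations above. The known case that is used is
Borel's theorem, the case of number fields, that is of the schemes of dimension zero (`point` and
`borel`). -/
theorem result {C : PairData.{w} ℚ Idx ℝ} (hC : IsPair C shiftJ twist shiftJ)
    (hg : WeightGen C) (point : BijAll C (aff ℚ ℚ)) (borel : Proj C 0) :
    ((∀ Y : Sch ℚ, SmoothProj Y → BijAll C Y) ↔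
      ∀ (a b c : ℕ) (H : Finset (Fin a × Fin b × Fin c)), BijAll C (tripS ℚ H)) ∧
    (∀ d : ℕ, Proj C d ↔ Forms C (d + 2)) ∧ Forms C 2 :=
  ⟨wg_graph hg hC point frac_rat, fun d => wg_dim hg hC point d,
    (wg_dim hg hC point 0).mp borel⟩

end Pool.Agent.Results.MP_15b3df_nt.HypergraphRegulators
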