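import Pool.Agent.Q16.BF.Smooth
import Pool.Agent.Q16.BF.Apery
import Pool.Agent.Y797.IV.Unr
set_option autoImplicit false

/-!
Unramified classes with independent regulators in the Milnor K-theory of the fibrations over the
affine space whose fibres are the level sets of a Laurent polynomial `P` which is a product of
polynomials with affinely independent exponents and roots of unity as coefficients and of
homogenized cyclotomic polynomials. Examples are the mirror families of many Fano varieties,
for instance Apéry's family of K3 surfaces (Beukers and Peters).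
-/

namespace Pool.Agent.Results.MP_15b3df_nt.SplitLaurentFibrations

open Pool.Agent.Q16.BF

open Pool.Agent.TH826.MK (KQ symb Unramified Torus)

open Pool.Agent.TH826.GA (splx)

open Pool.Agent.TH826.DC (dPhi)

open Pool.Agent.Y797.IV (Clears GenPos)

/-- The symbols of the simplices are unramified: for every field of fractions `L` of the coordinate
ring of the hypersurface there is an extension `f` of the inclusion to the ring of the open part,
such that for all `d + 2` different forms `S` the image of the symbol of `S` under `f` lies in the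
unramified part of the Milnor K-group of `L` (it is unramified at all discrete valuations). -/
def UnramSymb.{u, v} {K : Type u} [Field K] {s d m : ℕ} (p : MvPolynomial (Fin (s + 1)) K)
    (k : Fin (s + 1) → ℕ) (lam : K) (c : Fin (m + 1) → Fin (d + 1) → K) (a : Fin (m + 1) → K) :
    Prop :=
  ∀ (L : Type v) [Field L] [Algebra (GRing p k (dPhi lam c a)) L]
    [IsFractionRing (GRing p k (dPhi lam c a)) L],
    ∃ f : GOpen p k (dPhi lam c a) →+* L,
      (∀ b : GRing p k (dPhi lam c a),
        f (toG p k (dPhi lam c a) b) = algebraMap (GRing p k (dPhi lam c a)) L b) ∧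
      ∀ S : Fin (d + 2) → Fin (m + 1), Function.Injective S →
        KQ.map (d + 1 + s + 1) f (symb (gsym p k lam c a S)) ∈ Unramified L (d + 1 + s + 1)

/-- There are tori of dimension `d + 1 + s` in the complex points over `σ` of the open part, indexed
by the subsets of `{1, ..., m}` with `d + 1` elements, such that the determinant of the regulators
on the tori of the symbols of the simplices with a facet `L_0` does not vanish. -/
def IndepReg {K : Type*} [Field K] {s d m : ℕ} (p : MvPolynomial (Fin (s + 1)) K)
    (k : Fin (s + 1) → ℕ) (σ : K →+* ℂ) (lam : K) (c : Fin (m + 1) → Fin (d + 1) → K)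
    (a : Fin (m + 1) → K) : Prop :=
  ∃ Γ : {s : Finset (Fin m) // s.card = d + 1} → Torus (GOpen p k (dPhi lam c a)) (d + 1 + s),
    (∀ t θ (x : K), (Γ t).e θ (gcst p k (dPhi lam c a) x) = σ x) ∧
    (Matrix.of fun t i : {s : Finset (Fin m) // s.card = d + 1} =>
      (Γ t).reg (symb (gsym p k lam c a (splx i)))).det ≠ 0

/-- The hypotheses on the Laurent polynomial `p / z ^ k` in `z_0, ..., z_s`: `p` is a product of
polynomials with affinely independent exponents and roots of unity as coefficients and of
homogenized cyclotomic polynomials in two monomials, the origin is an interior point of the Newton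
polytope of `p / z ^ k`, no variable divides `p`, and the degree of `p / z ^ k` in `z_0` is `1`. -/
structure Admissible {K : Type*} [Field K] {s : ℕ} (p : MvPolynomial (Fin (s + 1)) K)
    (k : Fin (s + 1) → ℕ) : Prop where
  split : IsSplitPoly p
  interior : Interior p k
  not_dvd : ∀ j, ¬ (MvPolynomial.X j : MvPolynomial (Fin (s + 1)) K) ∣ p
  degree : p.degreeOf 0 = k 0 + 1

theorem main.{u, v} (n m s : ℕ) (hm : n + 1 ≤ m) (K : Type u) [Field K]
    [NumberField K] (σ : K →+* ℂ) (p : MvPolynomial (Fin (s + 1)) K) (k : Fin (s + 1) → ℕ)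
    (hp : Admissible p k) (c : Fin (m + 1) → Fin (n + 1) → K) (a : Fin (m + 1) → K)
    (hc : ∀ e j, IsIntegral ℤ (c e j)) (ha : ∀ e, IsIntegral ℤ (a e)) (hG : GenPos c a) :
    ∃ C : ℝ, ∀ D mu : K, Clears c a D → IsIntegral ℤ mu → C ≤ ‖σ (mu * D ^ (m + 1))‖ →
      IsDomain (GRing p k (dPhi (mu * D ^ (m + 1)) c a)) ∧
        SmoothOpen p k (dPhi (mu * D ^ (m + 1)) c a) σ ∧
        UnramSymb.{u, v} p k (mu * D ^ (m + 1)) c a ∧ IndepReg p k σ (mu * D ^ (m + 1)) c a := by
  obtain ⟨c1, hc1, h⟩ := exists_tori_gp (a := a) (k := k) σ hp.degree hG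
  obtain ⟨c2, h2⟩ := exists_smoothOpen p k (a := a) σ hG hm
  have hrow : ∀ e, c e ≠ 0 := Pool.Agent.TH826.DC.row_ne_zero hG.1 (by omega)
  refine ⟨max c1 c2, fun D mu hD hmu hl => ?_⟩
  generalize hlam : mu * D ^ (m + 1) = lam at hl
  have hl1 : c1 ≤ ‖σ lam‖ := (le_max_left _ _).trans hl
  have hl0 : lam ≠ 0 := by
    intro h0
    rw [h0, map_zero, norm_zero] at hl1
    linarith
  have hdom : IsDomain (GRing p k (dPhi lam c a)) :=
    isDomain_GRing hp.not_dvd hp.degree (Pool.Agent.TH826.DC.dPhi_ne_C (a := a) hrow hl0)
  obtain ⟨Γ, hΓ, hdet⟩ := h lam hl1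
  refine ⟨hdom, h2 lam ((le_max_right _ _).trans hl), ?_, Γ, hΓ, hdet⟩
  intro L _ _ _
  have hinj : Function.Injective (algebraMap (GRing p k (dPhi lam c a)) L) :=
    IsFractionRing.injective _ _
  have hex : ∃ t : Finset (Fin m), t.card = n + 1 := by
    obtain ⟨t, -, ht⟩ := Finset.exists_subset_card_eq (s := (Finset.univ : Finset (Fin m)))
      (n := n + 1) (by simpa using hm)
    exact ⟨t, ht⟩
  obtain ⟨t, ht⟩ := hex
  have hgd : gdel p k (dPhi lam c a) ≠ 0 := gdel_ne_zero ((Γ ⟨t, ht⟩).e 0)
  have hne : algebraMap (GRing p k (dPhi lam c a)) L (gdel p k (dPhi lam c a)) ≠ 0 :=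
    fun h => hgd (hinj (h.trans (map_zero _).symm))
  exact ⟨liftG (algebraMap (GRing p k (dPhi lam c a)) L) hne, fun b => liftG_toG _ _ _,
    fun S hS => gsym_unramified _ hp.split hp.interior hG hc ha hD hmu hlam.symm hS⟩

/-- Let `P = p / z ^ k` be a Laurent polynomial in `z_0, ..., z_s` over the number field `K` such
that `p` is a product of polynomials `∑_j ζ_j z ^ A_j` with roots of unity `ζ_j` and affinely
independent exponents `A_j` and of polynomials `z ^ (D B) Q(z ^ A / z ^ B)`, `A ≠ B`, where `Q` is a
monic divisor of degree `D` of some `X ^ r - 1`, `r ≥ 1`. Assume that the origin is an interior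
point of the Newton polytope of `P`, that `p` is not divisible by a variable, and that `P` has the
degree `1` in `z_0`. Let `n + 1 ≤ m`, let `σ` be a complex embedding of `K`, and let
`L_e = ∑_j c_{e,j} x_j - a_e`, `0 ≤ e ≤ m`, be affine forms in `n + 1` variables with integral
coefficients in `K` in general position (the linear parts of `n + 1` different forms are linearly
independent, `n + 2` different forms have no common zero). An algebraic integer `D ≠ 0` of `K`
clears the denominators of the vertices, if the coordinates of `D x` are integral for all common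
zeros `x` of `n + 1` forms; there are such `D` (even positive rational integers). There is a
constant `C` such that for all these `D`, all algebraic integers `μ` of `K` and
`λ = μ D ^ (m + 1)` with `|σ λ| ≥ C` the coordinate ring of the affine hypersurface
`p(z) = Φ(x) z ^ k`, `Φ = λ ∏_e L_e`, of dimension `n + 1 + s` (that is `P(z) = Φ(x)`) is a domain;
its open part `Φ z_0 ... z_s ≠ 0` is smooth at all complex points over `σ`; for all `n + 2`
different forms `S` the symbol `{z_0, u_1, ..., u_{n+1}, z_1, ..., z_s}`,
`u_l = γ_l L_{S_l} / (γ_0 L_{S_0})`, on the open part is unramified at all discrete valuations of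
the function field, where `γ_l` is `(-1)^l` times the determinant of the linear parts of the forms
`S` without `S_l`; and there are `binom(m, n + 1)` tori of dimension `n + 1 + s` in the complex
points (over `σ`) of the open part, such that the determinant of the regulators on the tori of the
symbols of the `S = (0, t_0, ..., t_n)` with `1 ≤ t_0 < ... < t_n ≤ m` does not vanish.

The hypotheses hold for instance for the Laurent polynomial
`(x + y) (z + 1) (x + y + z) (y + z + 1) / (x y z)` of Apéry's numbers. -/
theorem result.{u, v} :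
    (∀ (n m s : ℕ) (_ : n + 1 ≤ m) (K : Type u) [Field K] [NumberField K] (σ : K →+* ℂ)
      (p : MvPolynomial (Fin (s + 1)) K) (k : Fin (s + 1) → ℕ) (_ : Admissible p k)
      (c : Fin (m + 1) → Fin (n + 1) → K) (a : Fin (m + 1) → K)
      (_ : ∀ e j, IsIntegral ℤ (c e j)) (_ : ∀ e, IsIntegral ℤ (a e)) (_ : GenPos c a),
      (∃ D : ℕ, Clears c a (D : K)) ∧
      ∃ C : ℝ, ∀ D mu : K, Clears c a D → IsIntegral ℤ mu → C ≤ ‖σ (mu * D ^ (m + 1))‖ →
        IsDomain (GRing p k (dPhi (mu * D ^ (m + 1)) c a)) ∧
          SmoothOpen p k (dPhi (mu * D ^ (m + 1)) c a) σ ∧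
          UnramSymb.{u, v} p k (mu * D ^ (m + 1)) c a ∧
          IndepReg p k σ (mu * D ^ (m + 1)) c a) ∧
    ∀ (K : Type u) [Field K] [NumberField K], Admissible (aperyPoly K) fun _ => 1 :=
  ⟨fun n m s hm K _ _ σ p k hp c a hc ha hG => ⟨Pool.Agent.Y797.IV.exists_clears c a,
    main n m s hm K σ p k hp c a hc ha hG⟩,
    fun K _ _ => ⟨aperyPoly_split K, aperyPoly_interior K, aperyPoly_not_dvd K,
      aperyPoly_degree K⟩⟩

end Pool.Agent.Results.MP_15b3df_nt.SplitLaurentFibrations
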