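import Pool.Agent.Q16.LS.NC
set_option autoImplicit false

/-!
Beilinson's conjecture on regulators in weight `dim X + 1`, for `i = dim X`: on the hypersurfaces
`p(z) = λ ∏_j ∏_i (x_j - φ_{j,i}(x_{j+1}, ..., x_n)) ^ (w_{j,i} + 1) H(z, x)`, where `p` is a product of
polynomials with affinely independent exponents and roots of unity as coefficients and of homogenized
cyclotomic polynomials, and `H` is an arbitrary polynomial with integral coefficients all of whose
monomials have exponents of `z` in the interior of the Newton polytope of `p`: unramified classes in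
Milnor K-theory with linearly independent regulators, for all large algebraic integers `λ` of a number
field.
-/

namespace Pool.Agent.Results.MP_15b3df_nt.TowerLinearSystems

open Pool.Agent.Q16.BF (IsSplitPoly)

open Pool.Agent.Q16.LS

open Pool.Agent.TH826.MK (KQ symb Unramified Torus)

/-- The hypotheses on `p(z)` and `H(z, x)`: `p` is a product of polynomials with affinely independent
exponents and roots of unity as coefficients and of homogenized cyclotomic polynomials in two
monomials, `H ≠ 0` has integral coefficients, the exponents of `z` in the monomials of `H` lie in the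
interior of the Newton polytope of `p`, and the degree of `H` in `z_0` is the one of `p` minus one. -/
structure Admissible {K : Type*} [Field K] {s n : ℕ} (p : MvPolynomial (Fin (s + 1)) K)
    (H : MvPolynomial (Fin (s + 1) ⊕ Fin n) K) : Prop where
  split : IsSplitPoly p
  ne_zero : H ≠ 0
  integral : ∀ m, IsIntegral ℤ (H.coeff m)
  interior : InteriorH p H
  degree : p.degreeOf 0 = H.degreeOf (Sum.inl 0) + 1

/-- The polynomials `φ_{j,i}` with integral coefficients contain only the variables `x_l` with
`l > j`, and for each `j` they are different. -/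
structure IsTower {K : Type*} [Field K] {n : ℕ} (r : Fin n → ℕ)
    (φ : (j : Fin n) → Fin (r j + 1) → MvPolynomial (Fin n) K) : Prop where
  vars : ∀ j i, ∀ l ∈ (φ j i).vars, j < l
  integral : ∀ j i m, IsIntegral ℤ ((φ j i).coeff m)
  distinct : ∀ j, Function.Injective (φ j)

/-- The symbols are unramified: their images under all homomorphisms from the coordinate ring of the
open part to fields `L` lie in the unramified parts of the Milnor K-groups of `L` (they are unramified
at all discrete valuations of `L`). -/
def UnramSymb.{u, v} {K : Type u} [Field K] {s n : ℕ} (p : MvPolynomial (Fin (s + 1)) K)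
    (H : MvPolynomial (Fin (s + 1) ⊕ Fin n) K) (r : Fin n → ℕ)
    (φ : (j : Fin n) → Fin (r j + 1) → MvPolynomial (Fin n) K)
    (w : (j : Fin n) → Fin (r j + 1) → ℕ) (lam : K) : Prop :=
  ∀ (L : Type v) [Field L] (f : LOpen p H (tPhi r φ w lam) →+* L) (k : ∀ j, Fin (r j)),
    KQ.map (n + s + 1) f (symb (tsym r φ w lam p H k)) ∈ Unramified L (n + s + 1)

/-- There are tori of dimension `n + s` in the smooth complex points over `σ` of the open part,
indexed by the `k = (k_j)` with `0 ≤ k_j < r_j`, such that the determinant of the regulators of the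
symbols on the tori does not vanish. -/
def IndepReg {K : Type*} [Field K] {s n : ℕ} (p : MvPolynomial (Fin (s + 1)) K)
    (H : MvPolynomial (Fin (s + 1) ⊕ Fin n) K) (r : Fin n → ℕ)
    (φ : (j : Fin n) → Fin (r j + 1) → MvPolynomial (Fin n) K)
    (w : (j : Fin n) → Fin (r j + 1) → ℕ) (lam : K) (σ : K →+* ℂ) : Prop :=
  ∃ Γ : (∀ j, Fin (r j)) → Torus (LOpen p H (tPhi r φ w lam)) (n + s),
    (∀ t θ, ∃ (z : Fin (s + 1) → ℂ) (x : Fin n → ℂ),
      (∀ q, (Γ t).e θ (opol _ _ q) = MvPolynomial.eval₂ σ (Sum.elim z x) q) ∧
      MvPolynomial.eval₂ σ (Sum.elim z x)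
        (MvPolynomial.pderiv (Sum.inl 0) (leqn p H (tPhi r φ w lam))) ≠ 0) ∧
    (Matrix.of fun t k : ∀ j, Fin (r j) =>
      (Γ t).reg (symb (tsym r φ w lam p H k))).det ≠ 0

/-- Let `p` be a polynomial in `z_0, ..., z_s` over the number field `K` which is a product of
polynomials `∑_j ζ_j z ^ A_j` with roots of unity `ζ_j` and affinely independent exponents `A_j` and of
polynomials `z ^ (D B) Q(z ^ A / z ^ B)`, `A ≠ B`, where `Q` is a monic divisor of degree `D` of some
`X ^ r - 1`, `r ≥ 1`. Let `H ≠ 0` be a polynomial with integral coefficients in `z` and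
`x_0, ..., x_n` such that the exponents of `z` in the monomials of `H` lie in the interior of the
Newton polytope of `p`, and `deg_{z_0} p = deg_{z_0} H + 1`. For `0 ≤ j ≤ n` let
`φ_{j,0}, ..., φ_{j,r_j}` be different polynomials in the variables `x_l`, `l > j`, with integral
coefficients, let `w_{j,i} ≥ 0` be integers, and let `σ` be a complex embedding of `K`. There is a
constant `C` such that for all algebraic integers `λ` of `K` with `|σ λ| ≥ C` the following holds for
the affine hypersurface `p(z) = Φ(x) H(z, x)`, `Φ = λ ∏_j ∏_i (x_j - φ_{j,i}) ^ (w_{j,i} + 1)`, of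
dimension `n + 1 + s`: if `p` and `H` have no common factor and `H` has a monomial of the largest
degree in `x` whose degree in `z_0` is the one of `p` minus one (condition `Irr`), the coordinate ring
of the hypersurface is a domain; the images of the `∏_j r_j` symbols
`{z_0, (x_j - φ_{j,k_j+1}) / (x_j - φ_{j,0}) (0 ≤ j ≤ n), z_1, ..., z_s}`, `0 ≤ k_j < r_j`, on the open
part `Φ z_0 ... z_s ≠ 0` in all fields are unramified at all discrete valuations; and there are
`∏_j r_j` tori of dimension `n + 1 + s` in the complex points (over `σ`) of the open part, consisting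
of smooth points, such that the determinant of the regulators of the symbols on the tori does not
vanish. -/
theorem result.{u, v} (n s : ℕ) (K : Type u) [Field K] [NumberField K] (σ : K →+* ℂ)
    (p : MvPolynomial (Fin (s + 1)) K) (H : MvPolynomial (Fin (s + 1) ⊕ Fin (n + 1)) K)
    (hp : Admissible p H) (r : Fin (n + 1) → ℕ)
    (φ : (j : Fin (n + 1)) → Fin (r j + 1) → MvPolynomial (Fin (n + 1)) K) (hφ : IsTower r φ)
    (w : (j : Fin (n + 1)) → Fin (r j + 1) → ℕ) :
    ∃ C : ℝ, ∀ lam : K, IsIntegral ℤ lam → C ≤ ‖σ lam‖ →
      (Irr p H → IsDomain (VRing (leqn p H (tPhi r φ w lam)))) ∧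
        UnramSymb.{u, v} p H r φ w lam ∧ IndepReg p H r φ w lam σ := by
  obtain ⟨C, hC, h⟩ := exists_tori_tower σ hp.degree hp.ne_zero rfl hφ.vars hφ.distinct w
  have hp0 : p ≠ 0 := by
    intro h0
    have h1 := hp.degree
    rw [h0, MvPolynomial.degreeOf_zero] at h1
    omega
  refine ⟨C, fun lam hlam hl => ⟨fun hI => ?_, fun L _ f k => ?_, h lam hl⟩⟩
  · have hl0 : lam ≠ 0 := by
      intro h0
      rw [h0, map_zero, norm_zero] at hl
      linarith
    exact isDomain_VRing hp.degree rfl hI (tPhi_ne_C hφ.vars hl0)
  · exact tsym_unramified f hp0 hp.split hp.ne_zero hp.integral hp.interior hlam hφ.vars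
      hφ.integral k

end Pool.Agent.Results.MP_15b3df_nt.TowerLinearSystems
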